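import Pool.Agent.Run7.h325.HRT.Stm

/-! HRT project (helper325), piece EXP. -/

set_option autoImplicit false

namespace Run7.h24.HRT

open Pool.Agent.Run7.h325.HRT

theorem w_pow_im (A t : ℝ) (N : ℕ) :
    (w A t ^ N).im = ∑ i ∈ Finset.range (N + 1), b A N i * Real.sin (2 * Real.pi * (th A N i * t)) := by
  unfold w
  rw [add_pow, Complex.im_sum]
  refine Finset.sum_congr rfl fun i hi => ?_
  have hi' : i ≤ N := Nat.lt_succ_iff.1 (Finset.mem_range.1 hi)
  rw [mul_pow, mul_pow, ← Complex.exp_nat_mul, ← Complex.exp_nat_mul]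
  have h1 : (A : ℂ) ^ i * Complex.exp ((i : ℂ) * (((2 * Real.pi * ((1 - A) * D * t) : ℝ) : ℂ) * Complex.I)) *
      (((1 - A : ℝ) : ℂ) ^ (N - i) *
        Complex.exp (((N - i : ℕ) : ℂ) * (((-(2 * Real.pi * (A * D * t)) : ℝ) : ℂ) * Complex.I))) *
      ((N.choose i : ℕ) : ℂ) =
      ((b A N i : ℝ) : ℂ) * Complex.exp (((2 * Real.pi * (th A N i * t) : ℝ) : ℂ) * Complex.I) := by
    have h2 : Complex.exp ((i : ℂ) * (((2 * Real.pi * ((1 - A) * D * t) : ℝ) : ℂ) * Complex.I)) *
        Complex.exp (((N - i : ℕ) : ℂ) * (((-(2 * Real.pi * (A * D * t)) : ℝ) : ℂ) * Complex.I)) =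
        Complex.exp (((2 * Real.pi * (th A N i * t) : ℝ) : ℂ) * Complex.I) := by
      rw [← Complex.exp_add]
      congr 1
      unfold th
      rw [Nat.cast_sub hi']
      push_cast
      ring
    rw [← h2]
    unfold b
    push_cast
    ring
  rw [h1, Complex.im_ofReal_mul, Complex.exp_ofReal_mul_I_im]

theorem sum_sin (θ x : ℝ) (hθ : Real.sin (Real.pi * θ) ≠ 0) (n : ℕ) :
    ∑ k ∈ Finset.range n, Real.sin (2 * Real.pi * (θ * (x + k + 1 / 2))) =
      (Real.cos (2 * Real.pi * (θ * x)) - Real.cos (2 * Real.pi * (θ * (x + n)))) /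
        (2 * Real.sin (Real.pi * θ)) := by
  rw [eq_div_iff (mul_ne_zero two_ne_zero hθ)]
  induction n with
  | zero => simp
  | succ n ih =>
    rw [Finset.sum_range_succ, add_mul, ih]
    have h : Real.sin (2 * Real.pi * (θ * (x + n + 1 / 2))) * (2 * Real.sin (Real.pi * θ)) =
        Real.cos (2 * Real.pi * (θ * (x + n))) - Real.cos (2 * Real.pi * (θ * (x + (n + 1 : ℕ)))) := by
      have e1 : 2 * Real.pi * (θ * (x + n)) = 2 * Real.pi * (θ * (x + n + 1 / 2)) - Real.pi * θ := by ring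
      have e2 : 2 * Real.pi * (θ * (x + (n + 1 : ℕ))) =
          2 * Real.pi * (θ * (x + n + 1 / 2)) + Real.pi * θ := by push_cast; ring
      rw [e1, e2, Real.cos_sub, Real.cos_add]
      ring
    rw [h]
    ring

theorem t_EXP : S_EXP := by
  intro A x M n hsin
  unfold phiM
  rw [Finset.sum_comm]
  refine Finset.sum_congr rfl fun N hN => ?_
  have hN' := Finset.mem_Icc.1 hN
  simp_rw [w_pow_im, Finset.mul_sum]
  rw [Finset.sum_comm]
  refine Finset.sum_congr rfl fun i hi => ?_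
  have hi' : i ≤ N := Nat.lt_succ_iff.1 (Finset.mem_range.1 hi)
  rw [← sum_sin (th A N i) x (hsin N i hN'.1 hN'.2 hi') n, Finset.mul_sum]
  refine Finset.sum_congr rfl fun k _ => ?_
  ring

end Run7.h24.HRT
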